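import Mathlib
import Pool.Agent.Work.MP_59f3ad_nt.Bridge
import Pool.Agent.Work.MP_59f3ad_nt.Defect
import Pool.Agent.Work.MP_59f3ad_nt.Multi
import Pool.Agent.Work.MP_59f3ad_nt.Bdx.B02

/-!
Schneider's conjecture for `r = 1` (Leopoldt's conjecture) for almost all members of an explicit
family with `d` parameters of number fields of degree `d` in every signature.
-/

open Polynomial NumberField IsDedekindDomain

namespace Pool.Agent.Results.MP_59f3ad_nt.EverySignatureBox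

open Pool.Agent.Work.MP_59f3ad_nt Pool.Agent.Work.MP_59f3ad_nt.Multi

universe u

theorem card_idx (r1 r2 : ℕ) : Fintype.card (Idx r1 r2) = r1 + 2 * r2 := by
  have h : Fintype.card (Fin r1 ⊕ Fin r2 ⊕ Fin r2) = r1 + 2 * r2 := by
    rw [Fintype.card_sum, Fintype.card_sum, Fintype.card_fin, Fintype.card_fin]
    ring
  exact h

theorem result (r1 r2 : ℕ) (hd : 1 ≤ r1 + 2 * r2) :
    ∃ Bad : ℕ → Set (Fin r1 ⊕ Fin r2 ⊕ Fin r2 → ℤ),
      (∃ C : ℕ, ∀ p : ℕ, p.Prime → ∀ H : ℕ, 1 ≤ H →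
        {t : Fin r1 ⊕ Fin r2 ⊕ Fin r2 → ℤ | (∀ i, |t i| ≤ H) ∧ t ∈ Bad p}.ncard ≤
          C * p * H ^ (r1 + 2 * r2 - 1)) ∧
      (∃ C : ℝ, ∀ H : ℕ, 2 ≤ H →
        ({t : Fin r1 ⊕ Fin r2 ⊕ Fin r2 → ℤ | (∀ i, |t i| ≤ H) ∧
          ∃ p : ℕ, p.Prime ∧ p ^ 2 ≤ H ∧ t ∈ Bad p}.ncard : ℝ) ≤
          C * (H : ℝ) ^ (r1 + 2 * r2) / Real.log H) ∧
      ∀ (p : ℕ) [Fact p.Prime] (t : Fin r1 ⊕ Fin r2 ⊕ Fin r2 → ℤ), t ∉ Bad p →
        ∀ f : ℤ[X], f = (∏ i : Fin r1, (X - C (t (Sum.inl i)))) *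
          ∏ k : Fin r2, ((X - C (t (Sum.inr (Sum.inl k)))) ^ 2 +
            C (2 * t (Sum.inr (Sum.inr k)) ^ 2)) - 1 →
        Irreducible (f.map (Int.castRingHom ℚ)) ∧
        ∀ (K : Type u) [Field K] [NumberField K] (x : K), aeval x f = 0 →
          Module.finrank ℚ K = r1 + 2 * r2 →
          InfinitePlace.nrRealPlaces K = r1 ∧ InfinitePlace.nrComplexPlaces K = r2 ∧
          ∀ S : Set (HeightOneSpectrum (𝓞 K)),
            (∀ v : HeightOneSpectrum (𝓞 K), (p : 𝓞 K) ∈ v.asIdeal → v ∈ S) →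
            Sha1 K p 1 S = ⊥ := by
  classical
  have : Nonempty (Fin r1 ⊕ Fin r2) := by
    rcases Nat.eq_zero_or_pos r1 with h | h
    · exact ⟨Sum.inr ⟨0, by omega⟩⟩
    · exact ⟨Sum.inl ⟨0, h⟩⟩
  obtain ⟨j0⟩ := this
  have : Nonempty (Idx r1 r2) := by
    rcases Nat.eq_zero_or_pos r1 with h | h
    · exact ⟨Sum.inr (Sum.inl ⟨0, by omega⟩)⟩
    · exact ⟨Sum.inl ⟨0, h⟩⟩
  obtain ⟨i0⟩ := this
  have hne : Nonempty (Idx r1 r2) := ⟨i0⟩
  have hcard : Fintype.card (Idx r1 r2) = r1 + 2 * r2 := card_idx r1 r2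
  obtain ⟨hPm, hPd⟩ := GenUnits.genP_monic_natDegree r1 r2 hd
  -- the units
  have hprod : (∏ j, AdjoinRoot.mk (genP r1 r2) (genH r1 r2 j)) = 1 := by
    rw [← map_prod]
    have h1 : (∏ j, genH r1 r2 j) = genP r1 r2 + 1 := by
      rw [GenUnits.genP_eq]
      ring
    rw [h1, map_add, AdjoinRoot.mk_self, zero_add, map_one]
  have hunit : ∀ j, IsUnit (AdjoinRoot.mk (genP r1 r2) (genH r1 r2 j)) := by
    intro j
    rw [isUnit_iff_dvd_one, ← hprod]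
    exact Finset.dvd_prod_of_mem _ (Finset.mem_univ j)
  let u0 : Fin r1 ⊕ Fin r2 → (AdjoinRoot (genP r1 r2))ˣ := fun j => (hunit j).unit
  have hu0 : ∀ j, (u0 j : AdjoinRoot (genP r1 r2)) = AdjoinRoot.mk _ (genH r1 r2 j) := fun j => rfl
  set n : ℕ := Fintype.card {j : Fin r1 ⊕ Fin r2 // j ≠ j0} with hn
  have hn' : n = r1 + r2 - 1 := by
    rw [hn, Fintype.card_subtype_compl, Fintype.card_sum, Fintype.card_fin, Fintype.card_fin]
    simp
  let e : Fin n ≃ {j : Fin r1 ⊕ Fin r2 // j ≠ j0} := (Fintype.equivFin _).symm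
  have hu : ∀ E : Fin n → ℤ, E ≠ 0 → Transcendental ℤ
      ((∏ i, u0 (e i).1 ^ E i : (AdjoinRoot (genP r1 r2))ˣ) : AdjoinRoot (genP r1 r2)) := by
    intro E hE
    let E' : Fin r1 ⊕ Fin r2 → ℤ := fun j => if h : j ≠ j0 then E (e.symm ⟨j, h⟩) else 0
    have hE'0 : E' j0 = 0 := by simp [E']
    have hE'e : ∀ i, E' (e i).1 = E i := by
      intro i
      have h1 : (e i).1 ≠ j0 := (e i).2
      simp only [E']
      rw [dif_pos h1]
      simp
    have hE' : E' ≠ 0 := by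
      intro h
      apply hE
      funext i
      rw [← hE'e, h]
      rfl
    have h1 : ∏ j, u0 j ^ E' j = ∏ i, u0 (e i).1 ^ E i := by
      have h2 : ∏ j, u0 j ^ E' j = ∏ j : {j : Fin r1 ⊕ Fin r2 // j ≠ j0}, u0 j.1 ^ E' j.1 := by
        rw [← Finset.mul_prod_erase Finset.univ _ (Finset.mem_univ j0), hE'0, zpow_zero, one_mul]
        exact Finset.prod_subtype _ (fun j => by simp) _
      rw [h2, ← e.prod_comp]
      exact Finset.prod_congr rfl fun i _ => by rw [hE'e]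
    rw [← h1]
    exact gen_transcendental r1 r2 hd u0 hu0 j0 E' hE'0 hE'
  obtain ⟨Bad, C, hC, hBad⟩ := exceptions_box.{u} (genP r1 r2) hPm i0 n (fun i => u0 (e i).1) hu
  rw [hcard] at hC
  obtain ⟨C2, hC2⟩ := sep_count r1 r2
  let Sep : (Idx r1 r2 → ℤ) → Prop := fun t =>
    (∀ i j : Fin r1, i ≠ j → 4 ≤ |t (Sum.inl i) - t (Sum.inl j)|) ∧
    (∀ k l : Fin r2, k ≠ l → 4 ≤ |t (Sum.inr (Sum.inl k)) - t (Sum.inr (Sum.inl l))|) ∧
    (∀ k : Fin r2, 3 ≤ |t (Sum.inr (Sum.inr k))|)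
  have hfin : ∀ H : ℕ, {t : Idx r1 r2 → ℤ | ∀ i, |t i| ≤ H}.Finite := by
    intro H
    have h1 : {t : Idx r1 r2 → ℤ | ∀ i, |t i| ≤ H} =
        Set.pi Set.univ fun _ => Set.Icc (-(H : ℤ)) H := by
      ext t
      simp only [Set.mem_ofPred_eq, Set.mem_pi, Set.mem_univ, forall_true_left, Set.mem_Icc,
        abs_le]
    rw [h1]
    exact Set.Finite.pi fun _ => Set.finite_Icc _ _
  have hB : ∀ p : ℕ, p.Prime → ∀ H : ℕ, 1 ≤ H →
      {t : Idx r1 r2 → ℤ | (∀ i, |t i| ≤ H) ∧ t ∈ Bad p ∪ {t | ¬ Sep t}}.ncard ≤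
        (C + C2) * p * H ^ (r1 + 2 * r2 - 1) := by
    intro p hp H hH
    have h1 : {t : Idx r1 r2 → ℤ | (∀ i, |t i| ≤ H) ∧ t ∈ Bad p ∪ {t | ¬ Sep t}} ⊆
        {t : Idx r1 r2 → ℤ | (∀ i, |t i| ≤ H) ∧ t ∈ Bad p} ∪
        {t : Idx r1 r2 → ℤ | (∀ i, |t i| ≤ H) ∧ ¬ Sep t} := by
      rintro t ⟨ht, ht' | ht'⟩
      · exact Or.inl ⟨ht, ht'⟩
      · exact Or.inr ⟨ht, ht'⟩
    have h2 : ({t : Idx r1 r2 → ℤ | (∀ i, |t i| ≤ H) ∧ t ∈ Bad p} ∪
        {t : Idx r1 r2 → ℤ | (∀ i, |t i| ≤ H) ∧ ¬ Sep t}).Finite :=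
      ((hfin H).subset fun t ht => ht.1).union ((hfin H).subset fun t ht => ht.1)
    refine (Set.ncard_le_ncard h1 h2).trans ((Set.ncard_union_le _ _).trans ?_)
    have h3 := hC p hp H hH
    have h4 : {t : Idx r1 r2 → ℤ | (∀ i, |t i| ≤ H) ∧ ¬ Sep t}.ncard ≤
        C2 * H ^ (r1 + 2 * r2 - 1) := hC2 H hH
    have h5 : C2 * H ^ (r1 + 2 * r2 - 1) ≤ C2 * p * H ^ (r1 + 2 * r2 - 1) :=
      Nat.mul_le_mul_right _ (Nat.le_mul_of_pos_right _ hp.pos)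
    calc _ ≤ C * p * H ^ (r1 + 2 * r2 - 1) + C2 * p * H ^ (r1 + 2 * r2 - 1) :=
          Nat.add_le_add h3 (h4.trans h5)
      _ = _ := by ring
  obtain ⟨C', hC'⟩ := density_bound_box (fun p => Bad p ∪ {t | ¬ Sep t}) (C + C2)
    (fun p hp H hH => by
      rw [hcard]
      exact hB p hp H hH)
  rw [hcard] at hC'
  refine ⟨fun p => Bad p ∪ {t | ¬ Sep t}, ⟨C + C2, hB⟩, ⟨C', hC'⟩, fun p hpf t ht f hf => ?_⟩
  rw [Set.mem_union, not_or, Set.mem_ofPred_eq, not_not] at ht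
  obtain ⟨htBad, hta, htb, htc⟩ := ht
  have hfam : f = Multi.genF (fun i => t (Sum.inl i)) (fun k => t (Sum.inr (Sum.inl k)))
    (fun k => t (Sum.inr (Sum.inr k))) := by rw [hf, Multi.genF, genG]
  have hmap : (genP r1 r2).map (MvPolynomial.eval t) = f := by
    rw [hfam, genP, Multi.genF_map]
    congr 1 <;> (funext i; simp)
  have hinj : ∀ {m : ℕ} (a : Fin m → ℤ), (∀ i j, i ≠ j → 4 ≤ |a i - a j|) →
      Function.Injective a := by
    intro m a h i j hij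
    by_contra hne
    have h1 := h i j hne
    rw [hij, sub_self, abs_zero] at h1
    norm_num at h1
  have hfm : f.Monic := by
    rw [← hmap]
    exact hPm.map _
  have hirr : Irreducible f := by
    rw [hfam]
    exact Multi.genF_irreducible _ _ _ (hinj _ hta) (hinj _ htb)
      (fun k h => by have := htc k; rw [h] at this; norm_num at this) hd
  refine ⟨(IsPrimitive.Int.irreducible_iff_irreducible_map_cast hfm.isPrimitive).mp hirr,
    fun K _ _ x hx hK => ?_⟩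
  have hxint : IsIntegral ℤ x := ⟨f, hfm, hx⟩
  obtain ⟨y, hy⟩ : ∃ y : 𝓞 K, algebraMap (𝓞 K) K y = x := ⟨⟨x, hxint⟩, rfl⟩
  have hy0 : aeval y f = 0 := by
    apply FaithfulSMul.algebraMap_injective (𝓞 K) K
    rw [map_zero, ← hx, ← hy]
    exact (aeval_algebraMap_apply K y f).symm
  have hr := gen_nrReal_eq _ _ _ y hta htb htc hd hK (by rw [← hfam]; exact hy0)
  have hc := gen_nrComplex_eq _ _ _ y hta htb htc hd hK (by rw [← hfam]; exact hy0)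
  refine ⟨hr, hc, fun S hS => ?_⟩
  obtain ⟨w, c, hw⟩ := hBad p hpf.out t htBad (by rw [hmap]; exact hirr) K y
    (hK.trans hPd.symm) (by rw [hmap]; exact hy0)
  have hrank : Units.rank K = n := by
    rw [Units.rank, hn', InfinitePlace.card_eq_nrRealPlaces_add_nrComplexPlaces, hr, hc]
  obtain ⟨c', hc'⟩ := sleo_of_pind p hpf.out w c hw hrank
  exact sha_eq_bot_of_sleo K p c' hc' S hS

end Pool.Agent.Results.MP_59f3ad_nt.EverySignatureBox
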